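import Pool.Agent.Lib.MP_aed41b_nt.Defs

/-! The largest-prime-gcd recurrence: the basic dynamics. -/

namespace Pool.Agent.Lib.MP_aed41b_nt

lemma s_spec {m n : ℕ} (hm : m ≠ 0) : (s m n = 1 ∧ Nat.Coprime m n) ∨
    ((s m n).Prime ∧ s m n ∣ m ∧ s m n ∣ n ∧ ∀ q, q.Prime → q ∣ m → q ∣ n → q ≤ s m n) := by
  unfold s
  split_ifs with h
  · exact .inl ⟨rfl, h⟩
  · have g0 : Nat.gcd m n ≠ 0 := Nat.gcd_ne_zero_left hm
    obtain ⟨p, hp, e⟩ := Finset.exists_mem_eq_sup (Nat.gcd m n).primeFactors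
      (Nat.nonempty_primeFactors.2 (by omega)) id
    have hd := Nat.dvd_of_mem_primeFactors hp
    refine .inr ⟨e ▸ Nat.prime_of_mem_primeFactors hp, e ▸ hd.trans (Nat.gcd_dvd_left _ _),
      e ▸ hd.trans (Nat.gcd_dvd_right _ _), fun q h1 h2 h3 => ?_⟩
    exact Finset.le_sup (f := id) (Nat.mem_primeFactors.2 ⟨h1, Nat.dvd_gcd h2 h3, g0⟩)

/-- The modulus used at step `n + 1`. -/
def a (n : ℕ) : ℕ := if Even (n + 1) then n + 1 else n - 1

lemma a_cases (n : ℕ) : (n % 2 = 1 ∧ a n = n + 1) ∨ (n % 2 = 0 ∧ a n = n - 1) := by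
  unfold a; split_ifs with h <;> rw [Nat.even_iff] at h <;> omega

lemma c_succ {n : ℕ} (hn : 1 ≤ n) : c (n + 1) = c n + s (a n) (c n) := by
  obtain ⟨k, rfl⟩ := Nat.exists_eq_add_of_le' hn
  rw [c, a]; split_ifs <;> simp

lemma step {n : ℕ} (hn : 2 ≤ n) : c (n + 1) = c n + d (n + 1) ∧
    ((d (n + 1) = 1 ∧ Nat.Coprime (a n) (c n)) ∨ ((d (n + 1)).Prime ∧ d (n + 1) ∣ a n ∧
      d (n + 1) ∣ c n ∧ ∀ q, q.Prime → q ∣ a n → q ∣ c n → q ≤ d (n + 1))) := by
  have e : d (n + 1) = s (a n) (c n) := by simp [d, c_succ (by omega : 1 ≤ n)]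
  rw [e]
  exact ⟨c_succ (by omega), s_spec (by have := a_cases n; omega)⟩

lemma c_two : c 2 = 4 := by decide +kernel

lemma inv {n : ℕ} (hn : 2 ≤ n) : (c n + n) % 2 = 0 ∧ 2 * n ≤ c n + 2 ∧ c n ≤ 3 * n := by
  induction n, hn using Nat.le_induction with
  | base => simp [c_two]
  | succ n hn ih =>
    obtain ⟨e, h⟩ := step hn
    obtain ⟨i1, i2, i3⟩ := ih
    rcases h with ⟨h1, h2⟩ | ⟨h1, h2, h3, -⟩
    · refine ⟨by omega, ?_, by omega⟩
      by_contra hc
      have e1 : a n = n - 1 := by have := a_cases n; omega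
      have e2 : c n = 2 * (n - 1) := by omega
      rw [e1, e2, Nat.Coprime, Nat.gcd_mul_left_right] at h2
      have := c_two
      have : n = 2 := by omega
      subst this; omega
    · generalize d (n + 1) = p at *
      have p2 := h1.two_le
      have po : p % 2 = 1 := by
        rcases h1.eq_two_or_odd with rfl | h
        · have := a_cases n; omega
        · exact h
      refine ⟨by omega, by omega, ?_⟩
      rcases a_cases n with ⟨h4, h5⟩ | ⟨h4, h5⟩ <;> rw [h5] at h2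
      · have := Nat.le_of_dvd (by omega) (Nat.dvd_sub (h2.mul_left 3) h3)
        omega
      · rcases lt_or_ge (c n) (3 * (n - 1)) with h | h
        · have := Nat.le_of_dvd (by omega) (Nat.dvd_sub (h2.mul_left 3) h3)
          omega
        · have := Nat.le_of_dvd (by omega) (Nat.dvd_sub h3 (h2.mul_left 3))
          omega

/-- Small primes cannot carry `c n - n` across a multiple of the primorial. -/
lemma trap {B T n : ℕ} (hn : 2 ≤ n) (T2 : 2 ∣ T) (hT : ∀ p, p.Prime → p ≤ B → p ∣ T)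
    (h : c n ≤ T + n) (hd : d (n + 1) ≤ B) : c (n + 1) ≤ T + (n + 1) := by
  obtain ⟨e, h1 | ⟨h1, h2, h3, -⟩⟩ := step hn
  · omega
  obtain ⟨i1, i2, i3⟩ := inv hn
  have h4 := (hT _ h1 hd).add h2
  have p2 := h1.two_le
  rcases a_cases n with ⟨h5, h6⟩ | ⟨h5, h6⟩ <;> rw [h6] at h4
  · have := Nat.le_of_dvd (by omega) (Nat.dvd_sub h4 h3)
    omega
  · rcases lt_or_ge (c n) (T + (n - 1)) with h | h
    · have := Nat.le_of_dvd (by omega) (Nat.dvd_sub h4 h3)
      omega
    · have := Nat.le_of_dvd (by omega) (Nat.dvd_sub h3 h4)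
      omega

lemma large (B : ℕ) {m : ℕ} (hm : 2 ≤ m) :
    ∃ n, m < n ∧ n ≤ 2 * m + 2 * primorial B + 2 ∧ B < d n := by
  by_contra hc
  push Not at hc
  have P0 : 0 < 2 * primorial B := by have := primorial_pos B; omega
  obtain ⟨T, t1, t2, t3⟩ : ∃ T, 2 * primorial B ∣ T ∧ 2 * m ≤ T ∧ T < 2 * m + 2 * primorial B := by
    refine ⟨_, Nat.dvd_mul_right _ ((2 * m + (2 * primorial B - 1)) / (2 * primorial B)), ?_, ?_⟩
    · have := Nat.div_add_mod (2 * m + (2 * primorial B - 1)) (2 * primorial B)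
      have := Nat.mod_lt (2 * m + (2 * primorial B - 1)) P0
      omega
    · have := Nat.mul_div_le (2 * m + (2 * primorial B - 1)) (2 * primorial B)
      omega
  have key : ∀ n, m ≤ n → n ≤ T + 3 → c n ≤ T + n := fun n hn => by
    induction n, hn using Nat.le_induction with
    | base => intro _; have := inv hm; omega
    | succ n hn ih =>
      exact fun h => trap (B := B) (by omega) ((Nat.dvd_mul_right _ _).trans t1) (fun p h1 h2 =>
        ((Finset.dvd_prod_of_mem (fun p => p) (by simp [h1]; omega) : p ∣ primorial B).mul_left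
          2).trans t1) (ih (by omega)) (hc _ (by omega) (by omega))
  have := key (T + 3) (by omega) le_rfl
  have := inv (n := T + 3) (by omega)
  omega

end Pool.Agent.Lib.MP_aed41b_nt
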