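import Pool.Agent.Lib.MP_aed41b_nt.A

/-! The largest-prime-gcd recurrence: runs of ones and records. -/

namespace Pool.Agent.Lib.MP_aed41b_nt

lemma d_pos {n : ℕ} (hn : 2 ≤ n) : 1 ≤ d (n + 1) := by
  obtain ⟨-, h | h⟩ := step hn
  · omega
  · exact h.1.one_le

lemma d_two : d 2 = 2 := by decide +kernel

/-- A difference is `n - 2` or at most `n / 2`. -/
lemma d_le {n : ℕ} (hn : 2 ≤ n) : 2 * d (n + 1) ≤ n + 1 ∨
    (d (n + 1) = n - 1 ∧ c n = 2 * (n - 1)) := by
  by_cases h9 : n ≤ 8
  · interval_cases n <;> decide +kernel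
  obtain ⟨i1, i2, i3⟩ := inv hn
  obtain ⟨j1, j2, j3⟩ := inv (n := n + 1) (by omega)
  obtain ⟨e, h | ⟨h1, h2, h3, -⟩⟩ := step hn
  · omega
  generalize d (n + 1) = p at *
  have p2 := h1.two_le
  obtain ⟨t, ht⟩ := h2
  rcases a_cases n with ⟨h4, h5⟩ | ⟨h4, h5⟩ <;> rw [h5] at ht
  · left
    have : p % 2 = 1 := by omega
    rcases t with _ | _ | t
    · omega
    · omega
    · nlinarith
  · rcases t with _ | _ | t
    · omega
    · have hp : p = n - 1 := by omega
      obtain ⟨u, hu⟩ := h3
      right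
      refine ⟨hp, ?_⟩
      rcases u with _ | _ | _ | u
      · omega
      · omega
      · omega
      · have : p * (u + 3) ≥ p * 3 := Nat.mul_le_mul_left _ (by omega)
        have : p * (u + 1 + 1 + 1) = p * (u + 3) := rfl
        omega
    · left
      have : p * (t + 2) ≥ p * 2 := Nat.mul_le_mul_left _ (by omega)
      have : p * (t + 1 + 1) = p * (t + 2) := rfl
      omega

lemma mono {k j : ℕ} (hk : 2 ≤ k) (h : k ≤ j) : c k + j ≤ c j + k := by
  induction j, h using Nat.le_induction with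
  | base => omega
  | succ j h ih =>
    have := (step (hk.trans h)).1
    have := d_pos (hk.trans h)
    omega

/-- At the centre of a twin prime pair the run of ones goes down to the floor. -/
lemma run {k D : ℕ} (hk : 2 ≤ k) (hD : c k = D + k) (h6 : 6 ≤ D) (p1 : (D - 1).Prime)
    (p2 : (D + 1).Prime) {j : ℕ} (h1 : k ≤ j) : j ≤ D + 2 → c j = D + j := by
  induction j, h1 using Nat.le_induction with
  | base => exact fun _ => hD
  | succ j h1 ih =>
    intro h2
    have e0 := ih (by omega)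
    obtain ⟨e, h | ⟨q1, q2, q3, -⟩⟩ := step (hk.trans h1)
    · omega
    exfalso
    generalize d (j + 1) = p at *
    rcases a_cases j with ⟨h4, h5⟩ | ⟨h4, h5⟩ <;> rw [h5] at q2
    · have := Nat.dvd_sub q3 q2
      rw [show c j - (j + 1) = D - 1 by omega, Nat.prime_dvd_prime_iff_eq q1 p1] at this
      subst this
      obtain ⟨t, ht⟩ := q2
      have := p1.eq_two_or_odd
      rcases t with _ | _ | t
      · omega
      · omega
      · have : (D - 1) * (t + 2) ≥ (D - 1) * 2 := Nat.mul_le_mul_left _ (by omega)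
        have : (D - 1) * (t + 1 + 1) = (D - 1) * (t + 2) := rfl
        omega
    · have := Nat.dvd_sub q3 q2
      rw [show c j - (j - 1) = D + 1 by omega, Nat.prime_dvd_prime_iff_eq q1 p2] at this
      subst this
      have := Nat.le_of_dvd (by omega) q2
      omega

lemma top {k D : ℕ} (hk : 2 ≤ k) (hD : c k = D + k) (h6 : 6 ≤ D) (p1 : (D - 1).Prime)
    (p2 : (D + 1).Prime) : d (D + 3) = D + 1 := by
  have := inv hk
  have e0 := run hk hD h6 p1 p2 (j := D + 2) (by omega) le_rfl
  have po := p2.eq_two_or_odd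
  have e1 : a (D + 2) = D + 1 := by have := a_cases (D + 2); omega
  obtain ⟨e, h | ⟨q1, q2, -, -⟩⟩ := step (n := D + 2) (by omega)
  · have := h.2
    rw [e1, e0, show D + (D + 2) = 2 * (D + 1) by ring, Nat.Coprime, Nat.gcd_mul_left_right] at this
    omega
  · rw [e1] at q2
    exact (Nat.prime_dvd_prime_iff_eq q1 p2).1 q2

lemma isRecord_of {n : ℕ} (hn : 5 ≤ n) (h : d n = n - 2) : IsRecord n := by
  refine ⟨by omega, fun k h1 h2 => ?_⟩
  rcases h1.eq_or_lt with rfl | h1
  · rw [d_two]; omega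
  · obtain ⟨j, rfl⟩ : ∃ j, k = j + 1 := ⟨k - 1, by omega⟩
    have := d_le (n := j) (by omega)
    omega

/-- Away from centres of twin prime pairs runs are short. -/
lemma short {k D : ℕ} (hk : 2 ≤ k) (hD : c k = D + k) (h6 : 6 ≤ D)
    (h : ¬ ((D - 1).Prime ∧ (D + 1).Prime)) :
    ∃ q, q * q ≤ D + 1 ∧ ∀ j, k + 2 * q ≤ j → D + j < c j := by
  have fire : ∀ q i, q.Prime → k ≤ i → i < k + 2 * q → q ∣ a i → q ∣ D + i →
      ∀ j, k + 2 * q ≤ j → D + j < c j := fun q i h1 h2 h3 h4 h5 j hj => by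
    have m1 := mono hk h2
    have m2 := mono (k := i + 1) (j := j) (by omega) (by omega)
    obtain ⟨e, h7⟩ := step (hk.trans h2)
    have := d_pos (hk.trans h2)
    rcases lt_or_ge (D + i) (c i) with h8 | h8
    · omega
    rw [show D + i = c i by omega] at h5
    rcases h7 with h7 | h7
    · exact absurd (Nat.eq_one_of_dvd_coprimes h7.2 h4 h5) h1.ne_one
    · have := h7.1.two_le
      omega
  have res : ∀ q r, 0 < q → ∃ i t, k ≤ i ∧ i < k + 2 * q ∧ i + r = 2 * (q * t) := fun q r hq => by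
    have h1 := Nat.div_add_mod (k + r + (2 * q - 1)) (2 * q)
    have h2 := Nat.mod_lt (k + r + (2 * q - 1)) (by omega : 0 < 2 * q)
    rw [mul_assoc] at h1
    exact ⟨2 * (q * ((k + r + (2 * q - 1)) / (2 * q))) - r, _, by omega, by omega,
      Nat.sub_add_cancel (by omega)⟩
  have ev := (inv hk).1
  by_cases p1 : (D - 1).Prime
  · have p2 : ¬ (D + 1).Prime := fun p => h ⟨p1, p⟩
    have q1 := Nat.minFac_prime (n := D + 1) (by omega)
    have q2 := Nat.minFac_dvd (D + 1)
    have q3 := Nat.minFac_sq_le_self (by omega) p2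
    generalize (D + 1).minFac = q at *
    have qo : q % 2 = 1 := by
      rcases q1.eq_two_or_odd with rfl | h
      · omega
      · exact h
    obtain ⟨i, t, i1, i2, i3⟩ := res q (q - 1) q1.pos
    have q4 := q1.two_le
    have q5 : q ∣ i - 1 := by
      have := Nat.dvd_sub ((Nat.dvd_mul_right q t).mul_left 2) (dvd_refl q)
      rwa [show 2 * (q * t) - q = i - 1 by omega] at this
    refine ⟨q, by nlinarith, fire q i q1 i1 i2 ?_ ?_⟩
    · rcases a_cases i with h | h
      · omega
      · rwa [h.2]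
    · rw [show D + i = D + 1 + (i - 1) by omega]; exact q2.add q5
  · have q1 := Nat.minFac_prime (n := D - 1) (by omega)
    have q2 := Nat.minFac_dvd (D - 1)
    have q3 := Nat.minFac_sq_le_self (by omega) p1
    generalize (D - 1).minFac = q at *
    obtain ⟨i, t, i1, i2, i3⟩ := res q 1 q1.pos
    have q5 : q ∣ i + 1 := i3 ▸ (Nat.dvd_mul_right q t).mul_left 2
    refine ⟨q, by rw [sq] at q3; omega, fire q i q1 i1 i2 ?_ ?_⟩
    · rcases a_cases i with h | h
      · rwa [h.2]
      · omega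
    · rw [show D + i = D - 1 + (i + 1) by omega]; exact q2.add q5

end Pool.Agent.Lib.MP_aed41b_nt
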