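import Mathlib

/-! The largest-prime-gcd recurrence: definitions. -/

namespace Pool.Agent.Lib.MP_aed41b_nt

/-- `1` if `m, n` are coprime, otherwise the largest prime dividing `gcd m n`. -/
def s (m n : ℕ) : ℕ := if Nat.gcd m n = 1 then 1 else (Nat.gcd m n).primeFactors.sup id

/-- The sequence `c`, indexed from `1` (the value at `0` is not used). -/
def c : ℕ → ℕ
  | 0 => 0
  | 1 => 2
  | n + 2 => c (n + 1) + if Even (n + 2) then s (n + 2) (c (n + 1)) else s n (c (n + 1))

/-- The differences `d n = c n - c (n - 1)`. -/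
def d (n : ℕ) : ℕ := c n - c (n - 1)

/-- `d n` is a record. -/
def IsRecord (n : ℕ) : Prop := 2 ≤ n ∧ ∀ k, 2 ≤ k → k < n → d k < d n

end Pool.Agent.Lib.MP_aed41b_nt
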